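import Mathlib
import Pool.Agent.TH885.NW.Final
import Pool.Agent.TH885.NW.Exp2
import Pool.Agent.TH603.Cut.Deg

set_option autoImplicit false

/-!
# Negative curves are far from having equal multiplicities at any `n ≥ 18` of the points

Let `P 1, …, P s` be very general points of the complex projective plane, `C` the strict transform
of an irreducible plane curve of degree `d` with multiplicities `μ i` at the points, `T` a set of
`n ≥ 10` of the points, `S = ∑_{i ∈ T} μ i` and `ρ = S / n`. Then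
`C ^ 2 = d ^ 2 - ∑ μ i ^ 2 ≥ c S - ∑_{i ∈ T} (μ i - ρ) ^ 2 - ∑_{i ∉ T} μ i ^ 2` with
* `c = 1 - 11 / (3 √n) - 9 / (4 n)` if `S ≥ n (n / 2 - 11 √n / 6 + 2)`,
* `c = 1 - (3 + η) / √n` if `n ≥ N(η)` and `S ≥ n (n / 2 + 2)`.

In particular `C ^ 2 < 0` implies `∑_{i ∈ T} (μ i - ρ) ^ 2 + ∑_{i ∉ T} μ i ^ 2 > c S`. The first `c` is
positive for all `n ≥ 18`.
-/

namespace Pool.Agent.Results.MP_d3e5c7_ag.AllNumbersNearMean

open MvPolynomial

/-- The homogeneous ideal of the point `(p 0 : p 1 : 1)`. -/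
noncomputable def ptIdeal (p : Fin 2 → ℂ) : Ideal (MvPolynomial (Fin 3) ℂ) :=
  Ideal.span ({X 0 - C (p 0) * X 2, X 1 - C (p 1) * X 2} : Set (MvPolynomial (Fin 3) ℂ))

/-- The curve `F = 0` has multiplicity `m` at the point `(p 0 : p 1 : 1)`. -/
def HasMult (F : MvPolynomial (Fin 3) ℂ) (p : Fin 2 → ℂ) (m : ℕ) : Prop :=
  F ∈ ptIdeal p ^ m ∧ F ∉ ptIdeal p ^ (m + 1)

/-- The self-intersection of the class `d H - ∑ μ i E i`. -/
noncomputable def selfInt {s : ℕ} (d : ℕ) (μ : Fin s → ℕ) : ℝ :=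
  (d : ℝ) ^ 2 - ∑ i, (μ i : ℝ) ^ 2

/-- The mean of the multiplicities at the points of `T`. -/
noncomputable def mean {s : ℕ} (T : Finset (Fin s)) (μ : Fin s → ℕ) : ℝ :=
  (∑ i ∈ T, (μ i : ℝ)) / T.card

/-- The inequality `C ^ 2 ≥ c S - ∑_{i ∈ T} (μ i - ρ) ^ 2 - ∑_{i ∉ T} μ i ^ 2`. -/
def Bound {s : ℕ} (c : ℝ) (T : Finset (Fin s)) (d : ℕ) (μ : Fin s → ℕ) : Prop :=
  c * ∑ i ∈ T, (μ i : ℝ) - ∑ i ∈ T, ((μ i : ℝ) - mean T μ) ^ 2 - ∑ i ∈ Tᶜ, (μ i : ℝ) ^ 2 ≤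
    selfInt d μ

/-- from the degree to the self-intersection -/
theorem bound_of {s n d : ℕ} {c e : ℝ} {T : Finset (Fin s)} {μ : Fin s → ℕ} (hT : T.card = n)
    (hn : 0 < n) (h : (∑ i ∈ T, (μ i : ℝ)) + e ≤ Real.sqrt n * d)
    (h0 : 0 ≤ (∑ i ∈ T, (μ i : ℝ)) + e) (hc : c * n ≤ 2 * e) : Bound c T d μ := by
  classical
  obtain ⟨S, hS⟩ : ∃ S, S = ∑ i ∈ T, (μ i : ℝ) := ⟨_, rfl⟩
  have hn0 : (0 : ℝ) < n := by exact_mod_cast hn
  have hS0 : 0 ≤ S := by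
    rw [hS]; exact Finset.sum_nonneg fun i _ => Nat.cast_nonneg _
  have hrr : Real.sqrt n * Real.sqrt n = n := Real.mul_self_sqrt hn0.le
  rw [← hS] at h h0
  have h5 : (S + e) ^ 2 ≤ (d : ℝ) ^ 2 * n := by
    calc (S + e) ^ 2 ≤ (Real.sqrt n * d) ^ 2 := pow_le_pow_left₀ h0 h 2
      _ = (d : ℝ) ^ 2 * n := by rw [mul_pow, Real.sq_sqrt hn0.le]; ring
  have h6 : S ^ 2 + c * S * n ≤ (d : ℝ) ^ 2 * n := by
    have h7 : S * (c * n) ≤ S * (2 * e) := mul_le_mul_of_nonneg_left hc hS0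
    nlinarith [sq_nonneg e]
  have h7 : S ^ 2 / n + c * S ≤ (d : ℝ) ^ 2 := by
    have e3 : S ^ 2 / n + c * S = (S ^ 2 + c * S * n) / n := by
      field_simp
    rw [e3, div_le_iff₀ hn0]
    exact h6
  -- the variance
  have h8 : ∑ i ∈ T, ((μ i : ℝ) - mean T μ) ^ 2 = ∑ i ∈ T, (μ i : ℝ) ^ 2 - S ^ 2 / n := by
    have e4 : mean T μ = S / n := by unfold mean; rw [hT, hS]
    rw [e4]
    have e5 : ∀ i ∈ T, ((μ i : ℝ) - S / n) ^ 2 = (μ i : ℝ) ^ 2 - 2 * (S / n) * (μ i : ℝ) + (S / n) ^ 2 :=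
      fun i _ => by ring
    rw [Finset.sum_congr rfl e5, Finset.sum_add_distrib, Finset.sum_sub_distrib, ← Finset.mul_sum, ← hS,
      Finset.sum_const, hT, nsmul_eq_mul]
    field_simp
    ring
  have e6 : ∑ i, (μ i : ℝ) ^ 2 = ∑ i ∈ T, (μ i : ℝ) ^ 2 + ∑ i ∈ Tᶜ, (μ i : ℝ) ^ 2 :=
    (Finset.sum_add_sum_compl T _).symm
  unfold Bound selfInt
  rw [e6, h8, ← hS]
  linarith

/-- the restriction to the points of `T` -/
theorem restrict {s n : ℕ} {P : Fin s → Fin 2 → ℂ}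
    (hind : AlgebraicIndependent ℚ (fun ij : Fin s × Fin 2 => P ij.1 ij.2)) {μ : Fin s → ℕ}
    {F : MvPolynomial (Fin 3) ℂ} (hmu : ∀ i, HasMult F (P i) (μ i)) {T : Finset (Fin s)}
    (hT : T.card = n) : ∃ (Q : Fin n → Fin 2 → ℂ) (w : Fin n → ℕ),
      AlgebraicIndependent ℚ (fun ij : Fin n × Fin 2 => Q ij.1 ij.2) ∧
      (∑ i, (w i : ℝ)) = ∑ i ∈ T, (μ i : ℝ) ∧ ∀ i, F ∈ ptIdeal (Q i) ^ (w i) := by
  classical
  let e : T ≃ Fin n := T.equivFinOfCardEq hT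
  let f : Fin n × Fin 2 → Fin s × Fin 2 := fun q => ((e.symm q.1 : T), q.2)
  have hf : Function.Injective f := by
    rintro ⟨a, b⟩ ⟨a', b'⟩ h
    have h1 : ((e.symm a : T) : Fin s) = (e.symm a' : T) := congrArg Prod.fst h
    have h2 : b = b' := congrArg Prod.snd h
    have h3 := e.symm.injective (Subtype.ext h1)
    rw [h2, h3]
  refine ⟨fun a => P (e.symm a : T), fun a => μ (e.symm a : T), hind.comp f hf, ?_,
    fun a => (hmu _).1⟩
  rw [← Finset.sum_coe_sort T (fun i => (μ i : ℝ))]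
  exact Equiv.sum_comp e.symm (fun i : T => (μ i : ℝ))

theorem result : ∃ N : ℝ → ℕ, ∀ s : ℕ,
    ∃ G : ℕ → MvPolynomial (Fin s × Fin 2) ℂ, (∀ j, G j ≠ 0) ∧
      ∀ P : Fin s → Fin 2 → ℂ,
        (∀ j, MvPolynomial.eval (fun ij : Fin s × Fin 2 => P ij.1 ij.2) (G j) ≠ 0) →
        ∀ (d : ℕ) (μ : Fin s → ℕ) (F : MvPolynomial (Fin 3) ℂ), Irreducible F →
          F.IsHomogeneous d → (∀ i, HasMult F (P i) (μ i)) →
          ∀ (n : ℕ) (T : Finset (Fin s)), 10 ≤ n → T.card = n →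
            ((n : ℝ) * (n / 2 - 11 / 6 * Real.sqrt n + 2) ≤ ∑ i ∈ T, (μ i : ℝ) →
              Bound (1 - 11 / (3 * Real.sqrt n) - 9 / (4 * n)) T d μ) ∧
            ∀ η : ℝ, 0 < η → N η ≤ n → (n : ℝ) * (n / 2 + 2) ≤ ∑ i ∈ T, (μ i : ℝ) →
              Bound (1 - (3 + η) / Real.sqrt n) T d μ := by
  classical
  have hex : ∀ η : ℝ, ∃ N : ℕ, 0 < η → ∀ n : ℕ, N ≤ n → ∀ w : Fin n → ℕ,
      (n : ℝ) * ((n : ℝ) / 2 + 2) ≤ ∑ i, (w i : ℝ) →
      ∀ {L : Type} [Field L] [CharZero L] (P : Fin n → Fin 2 → L),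
      AlgebraicIndependent ℚ (fun ij : Fin n × Fin 2 => P ij.1 ij.2) →
      ∀ (d : ℕ) (G : MvPolynomial (Fin 3) L), G ≠ 0 → G.IsHomogeneous d →
        (∀ i, G ∈ (Ideal.span ({MvPolynomial.X 0 - MvPolynomial.C (P i 0) * MvPolynomial.X 2,
          MvPolynomial.X 1 - MvPolynomial.C (P i 1) * MvPolynomial.X 2} :
            Set (MvPolynomial (Fin 3) L))) ^ (w i)) →
        ((∑ i, (w i : ℝ)) + (n : ℝ) / 2) / √(n : ℝ) < (d : ℝ) + 3 / 2 + min (η / 2) 1 := by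
    intro η
    by_cases hη : 0 < η
    · obtain ⟨N, h⟩ := Pool.Agent.TH885.NW.all_degree (show 0 < min (η / 2) 1 from
        lt_min (by positivity) one_pos)
      exact ⟨N, fun _ => h⟩
    · exact ⟨0, fun h => absurd h hη⟩
  choose N0 hN0 using hex
  refine ⟨N0, fun s => ?_⟩
  obtain ⟨G, hG, hG'⟩ := Pool.Agent.TH603.Cut.exists_family (Fin s × Fin 2)
  refine ⟨G, hG, fun P hP d μ F hirr hFd hmu n T hn hT => ?_⟩
  have hind := hG' _ hP
  obtain ⟨Q, w, hQ, hw, hQF⟩ := restrict hind hmu hT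
  have hnR : (10 : ℝ) ≤ n := by exact_mod_cast hn
  have hn0 : (0 : ℝ) < n := by linarith
  obtain ⟨r, hr⟩ : ∃ r, r = Real.sqrt n := ⟨_, rfl⟩
  have hrr : r * r = n := by rw [hr]; exact Real.mul_self_sqrt hn0.le
  have hr3 : 3 ≤ r := by rw [hr]; exact Real.le_sqrt_of_sq_le (by norm_num; linarith)
  have hr0 : 0 < r := by linarith
  obtain ⟨S, hS⟩ : ∃ S, S = ∑ i ∈ T, (μ i : ℝ) := ⟨_, rfl⟩
  have hS0 : 0 ≤ S := by
    rw [hS]; exact Finset.sum_nonneg fun i _ => Nat.cast_nonneg _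
  constructor
  · intro hbig
    obtain ⟨k, hk1, hk2, hk3⟩ := Pool.Agent.TH885.NW.exists_k hn hbig
    have hk3' := hk3
    rw [← hw] at hk3
    have h1 := Pool.Agent.TH885.NW.exp_degree2 hn w hk1 hk2 hk3 Q hQ d F hirr.ne_zero hFd hQF
    rw [hw] at h1
    refine bound_of (e := n / 2 - 11 / 6 * r - 9 / 8) hT (by omega) ?_ ?_ ?_
    · rw [← hS] at h1 ⊢
      rw [← hr] at h1 ⊢
      linarith
    · have hk1R : (1 : ℝ) ≤ k := by exact_mod_cast hk1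
      have h2 : (n : ℝ) * 1 ≤ n * k := mul_le_mul_of_nonneg_left hk1R hn0.le
      have h3 : (n : ℝ) ≤ ∑ i ∈ T, (μ i : ℝ) := by linarith
      have h4 : 9 / 8 + 11 / 6 * r ≤ 3 / 2 * n := by rw [← hrr]; nlinarith
      linarith
    · rw [← hr]
      have e1 : (1 - 11 / (3 * r) - 9 / (4 * n)) * n = n - 11 / 3 * r - 9 / 4 := by
        have e2 : 11 / (3 * r) * n = 11 / 3 * r := by
          rw [← hrr]; field_simp
        have e3 : 9 / (4 * (n : ℝ)) * n = 9 / 4 := by field_simp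
        rw [sub_mul, sub_mul, e2, e3, one_mul]
      rw [e1]
      linarith
  · intro η hη hN hbig
    have h1 := hN0 η hη n hN w (by rw [hw]; exact hbig) Q hQ d F hirr.ne_zero hFd hQF
    rw [hw, ← hS, ← hr, div_lt_iff₀ hr0] at h1
    have hm1 : min (η / 2) 1 ≤ η / 2 := min_le_left _ _
    have hm2 : min (η / 2) 1 ≤ 1 := min_le_right _ _
    obtain ⟨ε, hε⟩ : ∃ ε, ε = min (η / 2) 1 := ⟨_, rfl⟩
    rw [← hε] at h1 hm1 hm2
    refine bound_of (e := n / 2 - (3 / 2 + ε) * r) hT (by omega) ?_ ?_ ?_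
    · rw [← hS, ← hr]
      linarith
    · rw [← hS]
      rw [← hS] at hbig
      have h2 : (n : ℝ) * 5 ≤ n * (n / 2 + 2) := mul_le_mul_of_nonneg_left (by linarith) hn0.le
      have h3 : (3 / 2 + ε) * r ≤ 5 / 2 * r := mul_le_mul_of_nonneg_right (by linarith) hr0.le
      have h4 : 5 / 2 * r ≤ n := by rw [← hrr]; nlinarith
      linarith
    · rw [← hr]
      have e1 : (1 - (3 + η) / r) * n = n - (3 + η) * r := by
        have e2 : (3 + η) / r * n = (3 + η) * r := by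
          rw [← hrr]; field_simp
        rw [sub_mul, e2, one_mul]
      rw [e1]
      have h3 : 2 * ε * r ≤ η * r := mul_le_mul_of_nonneg_right (by linarith) hr0.le
      linarith

end Pool.Agent.Results.MP_d3e5c7_ag.AllNumbersNearMean
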