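import Pool.Agent.TH167.CL.Neg
import Pool.Agent.TH167.TT.Conv9
import Pool.Agent.TH167.T3.Zar

set_option autoImplicit false

/-!
# Negative curves on very general blow-ups of the plane have no small multiplicities

Let `s ≥ 4`. For very general points `P 1, …, P s` of the complex projective plane, every
irreducible curve `C` with `C ^ 2 < 0` on the blow-up, of class `e H - ∑ w i E i`, which is not a
`(-1)`-curve, has multiplicity at least four at all the points `P i` through which it passes, with
at most one exception, which is a simple point of `C`; if there is an exception, then `C ^ 2 = -1`.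
Moreover at least ten of the multiplicities are at least four, and their sum is at least `3 e`.

Every effective class `D = d H - ∑ w i E i` with `w i ≥ 0`, at most nine of the `w i` being larger
than `3`, is `D = M + ∑ N a C a` with pairwise disjoint `(-1)`-curves `C a`, `N a > 0`,
`M C a = 0`, and a nef class `M` with `M ^ 2 ≥ 0` and `h⁰(D) = h⁰(M)`.
-/

namespace Pool.Agent.Results.MP_d3e5c7_ag.MultiplicitiesAtLeastFour

open MvPolynomial Pool.Agent.TH167 Pool.Agent.TH167.SHDefs

theorem result (r : ℕ) : ∃ Z : ℕ → MvPolynomial (Fin (r + 4) × Fin 2) ℂ, (∀ n, Z n ≠ 0) ∧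
    ∀ P : Fin (r + 4) → Fin 2 → ℂ,
      (∀ n, MvPolynomial.eval (fun ij : Fin (r + 4) × Fin 2 => P ij.1 ij.2) (Z n) ≠ 0) →
      (∀ (e : ℕ) (w : Fin (r + 4) → ℕ) (G : MvPolynomial (Fin 3) ℂ),
        Curve P G e w → inter e w e w < 0 → ¬ MinusOne P G e w →
        (∀ i, w i = 0 ∨ w i = 1 ∨ 4 ≤ w i) ∧
        (Finset.univ.filter fun i => w i = 1).card ≤ 1 ∧
        ((Finset.univ.filter fun i => w i = 1).card = 1 → inter e w e w = -1) ∧
        10 ≤ (Finset.univ.filter fun i => 4 ≤ w i).card ∧
        3 * e ≤ ∑ i, if 4 ≤ w i then w i else 0) ∧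
      ∀ (d : ℕ) (w : Fin (r + 4) → ℕ), (Finset.univ.filter fun i => 3 < w i).card ≤ 9 →
        sys P d w ≠ ⊥ →
        ∃ (d' : ℕ) (w' : Fin (r + 4) → ℕ) (k : ℕ) (G : Fin k → MvPolynomial (Fin 3) ℂ)
          (e : Fin k → ℕ) (u : Fin k → Fin (r + 4) → ℕ) (N : Fin k → ℕ),
          Decomp P d w d' w' G e u N ∧
          (∀ (C : MvPolynomial (Fin 3) ℂ) (f : ℕ) (v : Fin (r + 4) → ℕ), Curve P C f v →
            0 ≤ inter d' w' f v) ∧
          0 ≤ inter d' w' d' w' ∧ dimL P d w = dimL P d' w' := by
  obtain ⟨Z, hZ, h⟩ := SH.exists_fam (Fin (r + 4) × Fin 2)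
  refine ⟨Z, hZ, fun P hP => ⟨fun e w G hG hneg hne => ?_, fun d w hw hne => ?_⟩⟩
  · obtain ⟨h1, h2, h3⟩ := SH.curve_iff.1 hG
    rw [SH.inter_eq] at hneg
    have hne' : ¬ (SH.ip e w e w = -1 ∧ SH.kk e w = 1) := fun h0 =>
      hne ⟨hG, by rw [SH.inter_eq, h0.1], by rw [SH.interK_eq, h0.2]⟩
    have hcl := CL.neg_cl ((h _).1 hP) h1 h2 h3 hneg hne'
    have h9 : 10 ≤ (Finset.univ.filter fun i => 4 ≤ w i).card := by
      by_contra hcon
      exact hne' (T3.neg9 (by
        have : (Finset.univ.filter fun i => 4 ≤ w i).card ≤ 9 := by omega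
        exact this) ((h _).1 hP) h1 h2 h3 hneg)
    have hsum : 3 * e ≤ ∑ i, if 4 ≤ w i then w i else 0 := by
      by_contra hcon
      refine hne' (T3.neg3 ?_ ((h _).1 hP) h1 h2 h3 hneg)
      rw [Finset.sum_filter]
      exact not_le.1 hcon
    rcases hcl with hcl | ⟨hcl1, j0, hj0, hcl2⟩
    · have h0 : (Finset.univ.filter fun i => w i = 1) = ∅ := by
        rw [Finset.filter_eq_empty_iff]
        intro i _ hi
        have := hcl i (by omega)
        omega
      refine ⟨fun i => ?_, by rw [h0]; simp, fun hc => ?_, h9, hsum⟩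
      · by_cases hi : w i = 0
        · exact Or.inl hi
        · exact Or.inr (Or.inr (hcl i hi))
      · rw [h0] at hc
        simp at hc
    · have h0 : (Finset.univ.filter fun i => w i = 1) = {j0} := by
        ext i
        rw [Finset.mem_filter, Finset.mem_singleton]
        constructor
        · rintro ⟨-, hi⟩
          by_contra hij
          have := hcl2 i hij (by omega)
          omega
        · rintro rfl
          exact ⟨Finset.mem_univ _, hj0⟩
      refine ⟨fun i => ?_, by rw [h0]; simp, fun _ => by rw [SH.inter_eq]; exact hcl1, h9, hsum⟩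
      by_cases hi : w i = 0
      · exact Or.inl hi
      · by_cases hij : i = j0
        · rw [hij]
          exact Or.inr (Or.inl hj0)
        · exact Or.inr (Or.inr (hcl2 i hij hi))
  · have hpos : 0 < Module.finrank ℂ ↥(W609.CR.VS (fun j => W609.CR.aff (P j)) w d) := by
      have := W609.CR.vs_fin (fun j => W609.CR.aff (P j)) w d
      rw [SH.sys_eq] at hne
      rw [Module.finrank_pos_iff]
      exact (Submodule.nontrivial_iff_ne_bot).2 hne
    obtain ⟨d', w', k, C, e, u, N, h1, h2, h3, h4⟩ := T3.zar ((h _).1 hP) hw hpos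
    refine ⟨d', w', k, C, e, u, N, SH.decomp_iff.2 h1, fun G f v hG => ?_, h3, ?_⟩
    · obtain ⟨a1, a2, a3⟩ := SH.curve_iff.1 hG
      exact h2 G f v a1 a2 a3
    · rw [SH.dimL_eq, SH.dimL_eq, h4]

end Pool.Agent.Results.MP_d3e5c7_ag.MultiplicitiesAtLeastFour
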