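import Pool.Agent.Results.MP_309968_ag.BoundaryRays
import Pool.Agent.TH366.RC.Nf
import Pool.Agent.TH366.RC.Log
import Pool.Agent.TH146.MN.Few2

set_option autoImplicit false

/-!
# Nef classes composed of squares; every integral pattern with `7 (max l_i) ^ 2 ≤ √(∑ l_i ^ 2)`

Let `Fits b h L` mean that the rectangle with the real sides `b` and `h` is composed of squares with
the sides `L_1, ..., L_k` by gluing rectangles along a side and by certain area-preserving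
transformations, among them the replacement of a rectangle by ANY flatter rectangle (of height at
most `h / 2`) of the same area, or by a rectangle of height `h / 2` and `k` squares of ANY side
`l ≤ h / 2`. If the square with side `c` is composed of the squares with sides `L_j`, then for very
general points of the plane the class `c H - ∑ L_j E_j`, of self-intersection zero, is nef. This
applies to ALL integral patterns `l_i ≤ M` with `49 M ^ 4 ≤ ∑ l_i ^ 2` or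
`50 M ^ 3 (2 + log M) ≤ ∑ l_i ^ 2`. Integral patterns with `r` distinct nonzero values and
`(16 r + 8) M ^ 2 ≤ ∑ l_i ^ 2`, `144 M ^ 2 ≤ ∑ l_i ^ 2` are treated with a theorem of helper146
(`TH146/MN/Few2.lean`, several nodes and the same corner rule).
-/

namespace Pool.Agent.Results.MP_d3e5c7_ag.RectangleClasses

open Pool.Agent.H932R3 Pool.Agent.H350R3 Pool.Agent.H350R3.GR
open Pool.Agent.Results.MP_309968_ag.BoundaryRays (MultGE curvCone cone_le)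
open Pool.Agent.TH366.RC

theorem noForm_ext {n s e : ℕ} {g : Fin s → Fin n} (hg : Function.Injective g) {m : Fin n → ℕ}
    {x : Fin s → Fin 2 → ℂ} (hx : NB.Emp (fun j => m (g j)) x e) :
    NoForm (ptJ (Function.extend g x 0) m) e := by
  refine (noForm_of_emp hx).anti ?_
  unfold ptJ vIdeal
  refine le_iInf fun j => ?_
  have h2 := iInf_le (fun a => H932R2.cIdeal
    (fun _ : Fin 1 => (Function.extend g x 0 : Fin n → Fin 2 → ℂ) a 0)
    (Polynomial.C ((Function.extend g x 0 : Fin n → Fin 2 → ℂ) a 1)) (m a)) (g j)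
  simp only [hg.extend_apply] at h2
  exact h2

/-- the inequality for all forms -/
theorem form_le {n : ℕ} : ∃ f : ℕ → MvPolynomial (Fin n × Fin 2) ℂ, (∀ k, f k ≠ 0) ∧
    ∀ p : Fin n → Fin 2 → ℂ,
      (∀ k, MvPolynomial.eval (fun q : Fin n × Fin 2 => p q.1 q.2) (f k) ≠ 0) →
      ∀ (s : ℕ) (y : Fin s → ℝ) (c : ℝ), NB.Nf ℂ y c → ∀ g : Fin s → Fin n, Function.Injective g →
        ∀ (F : MvPolynomial (Fin 3) ℂ) (e : ℕ) (m : Fin n → ℕ), F.IsHomogeneous e →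
          F ≠ 0 → (∀ i, MultGE (p i) F (m i)) → ∑ j, y j * (m (g j) : ℝ) ≤ c * e := by
  classical
  obtain ⟨f, hf, hf'⟩ := exists_conds_all (K := ℂ) n
  refine ⟨f, hf, fun p hp s y c hS g hg F e m hF hF0 hm => ?_⟩
  by_contra hcon
  obtain ⟨x, hx⟩ := hS (fun j => m (g j)) e (by linarith)
  refine hF0 (hf' p hp e m ⟨_, noForm_ext hg hx⟩ F hF ?_)
  unfold ptJ vIdeal
  rw [Ideal.mem_iInf]
  intro i
  exact mem_of_support (p := p i) (hm i)

/-- from the inequality to the self-intersection -/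
theorem dist_le {k : ℕ} {L : Fin k → ℝ} {m : Fin k → ℕ} {c : ℝ} {e : ℕ}
    (hsq : ∑ j, L j ^ 2 = c ^ 2) (h : ∑ j, L j * (m j : ℝ) ≤ c * e) :
    ∑ j, (m j : ℝ) ^ 2 ≤ (e : ℝ) ^ 2 + ∑ j, ((m j : ℝ) - L j) ^ 2 := by
  have h1 : ∑ j, ((m j : ℝ) - L j) ^ 2 =
      ∑ j, (m j : ℝ) ^ 2 - 2 * ∑ j, L j * (m j : ℝ) + ∑ j, L j ^ 2 := by
    rw [Finset.mul_sum, ← Finset.sum_sub_distrib, ← Finset.sum_add_distrib]
    exact Finset.sum_congr rfl fun j _ => by ring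
  rw [h1, hsq]
  nlinarith [sq_nonneg ((e : ℝ) - c)]

theorem sum_range {n k : ℕ} {φ : Fin n → ℝ} {g : Fin k → Fin n} (hg : Function.Injective g)
    (hm : ∀ i, (∀ j, g j ≠ i) → φ i = 0) : ∑ i, φ i = ∑ j, φ (g j) := by
  classical
  have h5 : ∑ i, φ i = ∑ i ∈ Finset.univ.image g, φ i := by
    symm
    refine Finset.sum_subset (Finset.subset_univ _) fun i _ hi => ?_
    exact hm i fun j hj => hi (by rw [← hj]; exact Finset.mem_image_of_mem g (Finset.mem_univ j))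
  rw [h5, Finset.sum_image fun a _ b _ h => hg h]

/-- few distinct values -/
theorem pattern_few {n : ℕ} (l : Fin n → ℕ) (M : ℕ) (hl : ∀ i, l i ≤ M)
    (h1 : (16 * ((Finset.univ.image l).erase 0).card + 8) * M ^ 2 ≤ ∑ i, l i ^ 2)
    (h2 : 144 * M ^ 2 ≤ ∑ i, l i ^ 2) (h0 : ∑ i, l i ^ 2 ≠ 0) :
    ∃ (c : ℝ) (s : ℕ) (y : Fin s → ℝ) (g : Fin s → Fin n), NB.Nf ℂ y c ∧ Function.Injective g ∧
      c ^ 2 = ∑ i, (l i : ℝ) ^ 2 ∧ (∀ j, y j = (l (g j) : ℝ)) ∧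
      ∀ i, (∀ j, g j ≠ i) → l i = 0 := by
  classical
  obtain ⟨S, hS⟩ : ∃ S : Finset (Fin n), S = Finset.univ.filter fun i => l i ≠ 0 := ⟨_, rfl⟩
  obtain ⟨A, hA⟩ : ∃ A : Finset ℕ, A = (Finset.univ.image l).erase 0 := ⟨_, rfl⟩
  rw [← hA] at h1
  have hSA : ∀ i, i ∈ S → l i ∈ A := by
    intro i hi
    rw [hS, Finset.mem_filter] at hi
    rw [hA, Finset.mem_erase]
    exact ⟨hi.2, Finset.mem_image_of_mem l (Finset.mem_univ i)⟩
  obtain ⟨i₀, hi₀⟩ : ∃ i, l i ≠ 0 := by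
    by_contra hcon
    push Not at hcon
    exact h0 (Finset.sum_eq_zero fun i _ => by rw [hcon i]; rfl)
  have hi₀S : i₀ ∈ S := by rw [hS, Finset.mem_filter]; exact ⟨Finset.mem_univ _, hi₀⟩
  have hM1 : 1 ≤ M := (Nat.one_le_iff_ne_zero.2 hi₀).trans (hl i₀)
  have hAc : 0 < A.card := Finset.card_pos.2 ⟨_, hSA i₀ hi₀S⟩
  obtain ⟨g, hg, hgS⟩ : ∃ g : Fin S.card → Fin n, Function.Injective g ∧
      (∀ j, g j ∈ S) ∧ ∀ i ∈ S, ∃ j, g j = i := by
    refine ⟨fun j => (S.equivFin.symm j : Fin n), ?_, fun j => (S.equivFin.symm j).2, ?_⟩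
    · intro a b hab
      exact S.equivFin.symm.injective (Subtype.ext hab)
    · intro i hi
      exact ⟨S.equivFin ⟨i, hi⟩, by simp⟩
  obtain ⟨gr, hgr⟩ : ∃ gr : Fin S.card → Fin A.card,
      ∀ j, gr j = A.equivFin ⟨l (g j), hSA _ (hgS.1 j)⟩ := ⟨_, fun _ => rfl⟩
  obtain ⟨y, hy⟩ : ∃ y : Fin A.card → ℝ, ∀ t, y t = ((A.equivFin.symm t : ℕ) : ℝ) :=
    ⟨_, fun _ => rfl⟩
  have hygr : ∀ j, y (gr j) = (l (g j) : ℝ) := by
    intro j
    rw [hy, hgr]
    simp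
  have hAm : ∀ t : Fin A.card, ∃ i, l i = (A.equivFin.symm t : ℕ) ∧ l i ≠ 0 := by
    intro t
    have hAe : ∀ x ∈ A, x ∈ (Finset.univ.image l).erase 0 := fun x hx => hA ▸ hx
    have h3 := hAe _ (A.equivFin.symm t).2
    rw [Finset.mem_erase, Finset.mem_image] at h3
    obtain ⟨h4, i, -, h5⟩ := h3
    refine ⟨i, h5, ?_⟩
    rw [h5]
    exact h4
  obtain ⟨c, hc, hcsq⟩ : ∃ c : ℝ, 0 < c ∧ c ^ 2 = ((∑ i, l i ^ 2 : ℕ) : ℝ) := by
    have : (0 : ℝ) < ((∑ i, l i ^ 2 : ℕ) : ℝ) := by exact_mod_cast Nat.pos_of_ne_zero h0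
    exact ⟨√((∑ i, l i ^ 2 : ℕ) : ℝ), Real.sqrt_pos.2 this, Real.sq_sqrt this.le⟩
  have hsum : ∑ j, y (gr j) ^ 2 = c ^ 2 := by
    rw [hcsq]
    push_cast
    rw [sum_range (φ := fun i => (l i : ℝ) ^ 2) hg fun i hi => ?_]
    · exact Finset.sum_congr rfl fun j _ => by rw [hygr]
    · by_contra h3
      have h4 : i ∈ S := by
        rw [hS, Finset.mem_filter]
        refine ⟨Finset.mem_univ _, fun h5 => h3 ?_⟩
        rw [h5]; simp
      obtain ⟨j, hj⟩ := hgS.2 i h4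
      exact hi j hj
  refine ⟨c, S.card, fun j => y (gr j), g, ?_, hg, ?_, hygr, ?_⟩
  · refine Pool.Agent.TH146.MN.nf_few hAc gr ?_ y (M := (M : ℝ)) (by exact_mod_cast hM1) ?_ ?_ hsum
      ?_ ?_
    · intro t
      obtain ⟨i, hi1, hi2⟩ := hAm t
      obtain ⟨j, hj⟩ := hgS.2 i (by rw [hS, Finset.mem_filter]; exact ⟨Finset.mem_univ _, hi2⟩)
      refine ⟨j, ?_⟩
      rw [hgr, ← Equiv.eq_symm_apply]
      apply Subtype.ext
      simp only
      rw [hj, hi1]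
    · intro t
      obtain ⟨i, hi1, hi2⟩ := hAm t
      rw [hy, ← hi1]
      exact_mod_cast Nat.pos_of_ne_zero hi2
    · intro t
      obtain ⟨i, hi1, hi2⟩ := hAm t
      rw [hy, ← hi1]
      exact_mod_cast hl i
    · rw [hcsq]
      exact_mod_cast h1
    · have h3 : (12 * (M : ℝ)) ^ 2 ≤ c ^ 2 := by
        rw [hcsq]
        have : ((144 * M ^ 2 : ℕ) : ℝ) ≤ ((∑ i, l i ^ 2 : ℕ) : ℝ) := by exact_mod_cast h2
        push_cast at this ⊢
        linarith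
      exact (pow_le_pow_iff_left₀ (by positivity) hc.le (by norm_num)).1 h3
  · rw [hcsq]; push_cast; rfl
  · intro i hi
    by_contra h3
    obtain ⟨j, hj⟩ := hgS.2 i (by rw [hS, Finset.mem_filter]; exact ⟨Finset.mem_univ _, h3⟩)
    exact hi j hj

/-- integral patterns -/
theorem pattern_fits {n : ℕ} (l : Fin n → ℕ) (M : ℕ) (hl : ∀ i, l i ≤ M)
    (hM : 49 * M ^ 4 ≤ ∑ i, l i ^ 2 ∨
      50 * (M : ℝ) ^ 3 * (2 + Real.log M) ≤ ((∑ i, l i ^ 2 : ℕ) : ℝ))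
    (h0 : ∑ i, l i ^ 2 ≠ 0) :
    ∃ (c : ℝ) (s : ℕ) (y : Fin s → ℝ) (g : Fin s → Fin n), NB.Nf ℂ y c ∧ Function.Injective g ∧
      c ^ 2 = ∑ i, (l i : ℝ) ^ 2 ∧ (∀ j, y j = (l (g j) : ℝ)) ∧
      ∀ i, (∀ j, g j ≠ i) → l i = 0 := by
  classical
  obtain ⟨S, hS⟩ : ∃ S : Finset (Fin n), S = Finset.univ.filter fun i => l i ≠ 0 := ⟨_, rfl⟩
  obtain ⟨L, hL⟩ : ∃ L : List ℕ, L = S.toList.map l := ⟨_, rfl⟩
  have hsumL : (L.map fun x => x ^ 2).sum = ∑ i, l i ^ 2 := by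
    have h1 : (L.map fun x => x ^ 2).sum = ∑ i ∈ S, l i ^ 2 := by
      rw [hL, List.map_map, ← Finset.sum_map_toList]
      rfl
    rw [h1, hS, Finset.sum_filter]
    refine Finset.sum_congr rfl fun i _ => ?_
    split_ifs with h
    · rfl
    · rw [not_not.1 h]; rfl
  have hLm : ∀ x ∈ L, x ≠ 0 ∧ ∃ i, l i = x := by
    intro x hx
    rw [hL, List.mem_map] at hx
    obtain ⟨i, hi, rfl⟩ := hx
    rw [Finset.mem_toList, hS, Finset.mem_filter] at hi
    exact ⟨hi.2, i, rfl⟩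
  obtain ⟨c, hc, hcsq⟩ : ∃ c : ℝ, 0 < c ∧ (((L.map fun x => x ^ 2).sum : ℕ) : ℝ) = c ^ 2 := by
    rw [hsumL]
    have : (0 : ℝ) < ((∑ i, l i ^ 2 : ℕ) : ℝ) := by exact_mod_cast Nat.pos_of_ne_zero h0
    exact ⟨√((∑ i, l i ^ 2 : ℕ) : ℝ), Real.sqrt_pos.2 this, (Real.sq_sqrt this.le).symm⟩
  have hfits : Fits c c (L.map fun x : ℕ => (x : ℝ)) := by
    have hLb : ∀ x ∈ L, 1 ≤ x ∧ x ≤ M := fun x hx => by
      obtain ⟨h1, i, rfl⟩ := hLm x hx
      exact ⟨Nat.one_le_iff_ne_zero.2 h1, hl i⟩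
    rcases hM with hM | hM
    · exact Fits.fourth hLb (by rw [hsumL]; exact hM) hc hcsq
    · exact Fits.third hLb (by rw [hsumL]; exact hM) hc hcsq
  have hlen : (L.map fun x : ℕ => (x : ℝ)).length = S.toList.length := by rw [hL]; simp
  obtain ⟨g, hg⟩ : ∃ g : Fin (L.map fun x : ℕ => (x : ℝ)).length → Fin n,
      ∀ j, g j = S.toList.get (Fin.cast hlen j) := ⟨_, fun _ => rfl⟩
  refine ⟨c, _, _, g, hfits.nf, ?_, ?_, ?_, ?_⟩
  · intro a b hab
    rw [hg, hg] at hab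
    have := (List.nodup_iff_injective_get.1 (Finset.nodup_toList S)) hab
    exact Fin.cast_injective _ this
  · rw [← hcsq, hsumL]
    push_cast
    rfl
  · intro j
    rw [hg]
    subst hL
    simp
  · intro i hi
    by_contra h
    have h1 : i ∈ S.toList := by
      rw [Finset.mem_toList, hS, Finset.mem_filter]
      exact ⟨Finset.mem_univ _, h⟩
    obtain ⟨j, hj⟩ := List.get_of_mem h1
    refine hi (Fin.cast hlen.symm j) ?_
    rw [hg]
    simpa using hj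

theorem result :
    (∀ n : ℕ, ∃ f : ℕ → MvPolynomial (Fin n × Fin 2) ℂ, (∀ k, f k ≠ 0) ∧
      ∀ p : Fin n → Fin 2 → ℂ,
        (∀ k, MvPolynomial.eval (fun q : Fin n × Fin 2 => p q.1 q.2) (f k) ≠ 0) →
        -- integral patterns `l` with `7 (max l) ^ 2 ≤ √(∑ l ^ 2)`, or a similar condition
        (∀ (l : Fin n → ℕ) (M : ℕ), (∀ i, l i ≤ M) →
          (49 * M ^ 4 ≤ ∑ i, l i ^ 2 ∨
            50 * (M : ℝ) ^ 3 * (2 + Real.log M) ≤ ((∑ i, l i ^ 2 : ℕ) : ℝ) ∨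
            144 * M ^ 2 ≤ ∑ i, l i ^ 2 ∧
              (16 * ((Finset.univ.image l).erase 0).card + 8) * M ^ 2 ≤ ∑ i, l i ^ 2) →
          ∀ (F : MvPolynomial (Fin 3) ℂ) (e : ℕ) (m : Fin n → ℕ), F.IsHomogeneous e →
            F ≠ 0 → (∀ i, MultGE (p i) F (m i)) →
            (∑ i, l i * m i) ^ 2 ≤ (∑ i, l i ^ 2) * e ^ 2 ∧
            ∀ k : ℕ, (∀ i, k * l i ≤ m i) → ∑ i, (k * l i) ^ 2 ≤ e ^ 2) ∧
        -- classes composed of squares
        ∀ (L : List ℝ) (c : ℝ), Fits c c L →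
          (L.map fun t => t ^ 2).sum = c ^ 2 ∧
          ∀ g : Fin L.length → Fin n, Function.Injective g →
            (∀ x ∈ curvCone p, ∑ j, L.get j * x.2 (g j) ≤ c * x.1) ∧
            ∀ (F : MvPolynomial (Fin 3) ℂ) (e : ℕ) (m : Fin n → ℕ), F.IsHomogeneous e →
              F ≠ 0 → (∀ i, MultGE (p i) F (m i)) →
              ∑ j, (m (g j) : ℝ) ^ 2 ≤ (e : ℝ) ^ 2 + ∑ j, ((m (g j) : ℝ) - L.get j) ^ 2 ∧
              ((∀ i, (∀ j, g j ≠ i) → m i = 0) → ∑ j, ((m (g j) : ℝ) - L.get j) ^ 2 < 1 →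
                ∑ i, m i ^ 2 ≤ e ^ 2)) ∧
    -- real weights
    (∀ (c v M : ℝ) (L : List ℝ) (N : ℕ), (L.map fun x => x ^ 2).sum = c ^ 2 → v ∈ L →
      (∀ x ∈ L, 0 < x ∧ x ≤ M) → 24 * M ^ 2 ≤ N * v ^ 2 →
      (∀ x ∈ L, (L.count x : ℝ) * x ^ 2 < 24 * M ^ 2 → 2 * M * (L.count x * x) ≤ N * v ^ 2) →
      ((L.toFinset.filter fun x => (L.count x : ℝ) * x ^ 2 < 24 * M ^ 2).card + 1) * N ≤
        L.count v → 12 * M ≤ c → Fits c c L) ∧
    (∀ (c u v : ℝ) (k r : ℕ), 0 < v → k * u ^ 2 + r * v ^ 2 = c ^ 2 → 2 * v ≤ u → 3 * u ≤ c →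
      3 * u ^ 2 ≤ 2 * (r * v ^ 2) → Fits c c (List.replicate k u ++ List.replicate r v)) := by
  classical
  refine ⟨fun n => ?_, fun c v M L N hsq hvL hL hN hN' hr h12 =>
      Fits.general hvL hL hN hN' hr h12 hsq,
    fun c u v k r hv hsq h1 h2 h3 => Fits.twoLevel hv hsq h1 h2 h3⟩
  obtain ⟨f, hf, hf'⟩ := form_le (n := n)
  refine ⟨f, hf, fun p hp => ⟨?_, fun L c hS => ?_⟩⟩
  · intro l M hl hM F e m hF hF0 hm
    have key : (∑ i, l i * m i) ^ 2 ≤ (∑ i, l i ^ 2) * e ^ 2 := by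
      by_cases h0 : ∑ i, l i ^ 2 = 0
      · have h1 : ∀ i, l i = 0 := by
          intro i
          have := (Finset.sum_eq_zero_iff.1 h0) i (Finset.mem_univ i)
          exact pow_eq_zero_iff (two_ne_zero) |>.1 this
        have h2 : ∑ i, l i * m i = 0 := Finset.sum_eq_zero fun i _ => by rw [h1 i, zero_mul]
        rw [h2]
        exact Nat.zero_le _
      · obtain ⟨c, s, y, g, hfits, hg, hc, hLg, hout⟩ : ∃ (c : ℝ) (s : ℕ) (y : Fin s → ℝ)
            (g : Fin s → Fin n), NB.Nf ℂ y c ∧ Function.Injective g ∧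
            c ^ 2 = ∑ i, (l i : ℝ) ^ 2 ∧ (∀ j, y j = (l (g j) : ℝ)) ∧
            ∀ i, (∀ j, g j ≠ i) → l i = 0 := by
          rcases hM with hM | hM | ⟨hM1, hM2⟩
          · exact pattern_fits l M hl (Or.inl hM) h0
          · exact pattern_fits l M hl (Or.inr hM) h0
          · exact pattern_few l M hl hM2 hM1 h0
        have h1 := hf' p hp s y c hfits g hg F e m hF hF0 hm
        have h2 : ∑ j, y j * (m (g j) : ℝ) = ∑ i, (l i : ℝ) * (m i : ℝ) := by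
          rw [sum_range (φ := fun i => (l i : ℝ) * (m i : ℝ)) hg fun i hi => by
            rw [hout i hi]; simp]
          exact Finset.sum_congr rfl fun j _ => by rw [hLg j]
        rw [h2] at h1
        have h3 : (0 : ℝ) ≤ ∑ i, (l i : ℝ) * (m i : ℝ) :=
          Finset.sum_nonneg fun i _ => by positivity
        have h4 : (∑ i, (l i : ℝ) * (m i : ℝ)) ^ 2 ≤ (c * e) ^ 2 := pow_le_pow_left₀ h3 h1 2
        rw [mul_pow, hc] at h4
        exact_mod_cast h4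
    refine ⟨key, fun k hk => ?_⟩
    by_cases h0 : ∑ i, l i ^ 2 = 0
    · have h1 : ∀ i, l i = 0 := by
        intro i
        have := (Finset.sum_eq_zero_iff.1 h0) i (Finset.mem_univ i)
        exact pow_eq_zero_iff (two_ne_zero) |>.1 this
      have h2 : ∑ i, (k * l i) ^ 2 = 0 := Finset.sum_eq_zero fun i _ => by rw [h1 i]; simp
      rw [h2]
      exact Nat.zero_le _
    · have h1 : k * ∑ i, l i ^ 2 ≤ ∑ i, l i * m i := by
        rw [Finset.mul_sum]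
        refine Finset.sum_le_sum fun i _ => ?_
        calc k * l i ^ 2 = l i * (k * l i) := by ring
          _ ≤ l i * m i := Nat.mul_le_mul_left _ (hk i)
      have h2 : (k * ∑ i, l i ^ 2) ^ 2 ≤ (∑ i, l i ^ 2) * e ^ 2 :=
        (Nat.pow_le_pow_left h1 2).trans key
      have h3 : ∑ i, (k * l i) ^ 2 = k ^ 2 * ∑ i, l i ^ 2 := by
        rw [Finset.mul_sum]
        exact Finset.sum_congr rfl fun i _ => by ring
      rw [h3]
      have h4 : (∑ i, l i ^ 2) * (k ^ 2 * ∑ i, l i ^ 2) ≤ (∑ i, l i ^ 2) * e ^ 2 := by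
        calc _ = (k * ∑ i, l i ^ 2) ^ 2 := by ring
          _ ≤ _ := h2
      exact Nat.le_of_mul_le_mul_left h4 (Nat.pos_of_ne_zero h0)
  · obtain ⟨hc, -, hpos, hsq, -⟩ := hS.sem
    refine ⟨by rw [hsq, sq], fun g hg => ⟨?_, ?_⟩⟩
    · refine cone_le (fun j => (hpos _ (List.get_mem L j)).le) fun F e m hF he hF0 hm => ?_
      rw [mul_comm]
      exact hf' p hp _ L.get c hS.nf g hg F e m hF hF0 hm
    · intro F e m hF hF0 hm
      have h1 : ∑ j, (m (g j) : ℝ) ^ 2 ≤ (e : ℝ) ^ 2 + ∑ j, ((m (g j) : ℝ) - L.get j) ^ 2 := by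
        refine dist_le (L := fun j => L.get j) (m := fun j => m (g j)) ?_
          (hf' p hp _ L.get c hS.nf g hg F e m hF hF0 hm)
        rw [sum_get L fun t => t ^ 2, hsq, sq]
      refine ⟨h1, fun hout hlt => ?_⟩
      rw [← sum_range (φ := fun i => (m i : ℝ) ^ 2) hg fun i hi => by rw [hout i hi]; simp] at h1
      have h2 : ∑ i, (m i : ℝ) ^ 2 < (e : ℝ) ^ 2 + 1 := by linarith
      have h3 : ∑ i, m i ^ 2 < e ^ 2 + 1 := by exact_mod_cast h2
      omega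

end Pool.Agent.Results.MP_d3e5c7_ag.RectangleClasses
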