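import Pool.Agent.TH146.MN.Lev
import Pool.Agent.Results.MP_309968_ag.BoundaryRays

set_option autoImplicit false

/-!
# Curves whose multiplicities are not rare, and nef classes with weights on several levels

Through very general points of the plane there is no curve of negative self-intersection each of
whose nonzero multiplicities `m i` is attained at least `16` times and satisfies
`36 m i ^ 2 ≤ ∑ m j ^ 2` (as it does if it is attained `36` times, or if it is at most one sixth of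
the degree). This is a special case of a more general condition on the multiplicities, and of
a Nagata theorem with real weights: the class `c H - ∑ y E` of self-intersection zero is nef if the
weights stand on levels which differ by factors at least `2`, and if on every level there are few
different weights in comparison with the sum of the squares of all the weights from there on.
-/

namespace Pool.Agent.Results.MP_d3e5c7_ag.WeightedNagata

open Pool.Agent.H932R3 Pool.Agent.H350R3 Pool.Agent.H350R3.GR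

/-- `MultGE a F m`: the form `F` has multiplicity at least `m` at the point `(a 0 : a 1 : 1)`. -/
def MultGE (a : Fin 2 → ℂ) (F : MvPolynomial (Fin 3) ℂ) (m : ℕ) : Prop :=
  ∀ s ∈ (MvPolynomial.aeval
    ![(MvPolynomial.X 0 : MvPolynomial (Fin 2) ℂ) + MvPolynomial.C (a 0),
      (MvPolynomial.X 1 : MvPolynomial (Fin 2) ℂ) + MvPolynomial.C (a 1),
      (1 : MvPolynomial (Fin 2) ℂ)] F).support, m ≤ s 0 + s 1

/-- `N` points in `r` nonempty groups (`gr j` is the group of the point `j`), every point of the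
group `l` with the real weight `y l > 0`, with `∑ y (gr j) ^ 2 = c ^ 2`. The groups stand on levels,
`top l ≥ y l` is the bound of the level of `l`. The bounds of two levels differ at least by
the factor `2`; the bound of a level which is not the lowest one is the weight of a group on this
level. Every weight either equals the bound `top l` of its level or the total weight of its group
is larger than `top l`. For every level with the bound `W` and with `s` groups, `(4 s + 2) W ^ 2` is at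
most the sum of the squares of the weights of all points on this level and the lower ones. Finally
`c = 4 W`, `c = 5 W` or `c ≥ 6 W` for the largest bound `W`. -/
structure IsGood {N r : ℕ} (gr : Fin N → Fin r) (y top : Fin r → ℝ) (c : ℝ) : Prop where
  surj : Function.Surjective gr
  pos : ∀ l, 0 < y l
  sq : ∑ j, y (gr j) ^ 2 = c ^ 2
  le : ∀ l, y l ≤ top l
  ratio : ∀ l l', top l' < top l → 2 * top l' ≤ top l
  att : ∀ l l', top l' < top l → ∃ l'', y l'' = top l ∧ top l'' = top l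
  big : ∀ l, y l = top l ∨ top l < ∑ j with gr j = l, y (gr j)
  mass : ∀ l, (4 * ((Finset.univ.filter fun l' => top l' = top l).card : ℝ) + 2) * top l ^ 2 ≤
    ∑ j with top (gr j) ≤ top l, y (gr j) ^ 2
  six : ∃ W, (∀ l, top l ≤ W) ∧ (∃ l, top l = W) ∧ (c = 4 * W ∨ c = 5 * W ∨ 6 * W ≤ c)

/-- The nonzero multiplicities `m i` stand on levels, `top t ≥ t` is the bound of the level of the
value `t`. The bounds of two levels differ at least by the factor `2`; the bound of a level which is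
not the lowest one is a multiplicity on this level. Every nonzero `m i` either equals the
bound of its level or the sum of all multiplicities equal to `m i` is larger than this bound. For
every level with the bound `W` and with `s` different values, `(4 s + 2) W ^ 2` is at most the sum of
the squares of the multiplicities on this level and the lower ones. Finally
`36 W ^ 2 ≤ ∑ m j ^ 2` for every level. -/
structure IsGoodMult {n : ℕ} (m : Fin n → ℕ) (top : ℕ → ℕ) : Prop where
  le : ∀ i, m i ≠ 0 → m i ≤ top (m i)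
  ratio : ∀ i j, m i ≠ 0 → m j ≠ 0 → top (m j) < top (m i) → 2 * top (m j) ≤ top (m i)
  att : ∀ i j, m i ≠ 0 → m j ≠ 0 → top (m j) < top (m i) →
    ∃ k, m k = top (m i) ∧ top (m k) = top (m i)
  big : ∀ i, m i ≠ 0 → m i = top (m i) ∨ top (m i) < ∑ j with m j = m i, m j
  mass : ∀ i, m i ≠ 0 →
    (4 * ((Finset.univ.image m).filter fun t => t ≠ 0 ∧ top t = top (m i)).card + 2) *
      top (m i) ^ 2 ≤ ∑ j with top (m j) ≤ top (m i), m j ^ 2
  six : ∀ i, m i ≠ 0 → 36 * top (m i) ^ 2 ≤ ∑ j, m j ^ 2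

theorem sum_group {N r : ℕ} (gr : Fin N → Fin r) (y : Fin r → ℝ) (l : Fin r) :
    ∑ j with gr j = l, y (gr j) = (Fintype.card {j // gr j = l} : ℝ) * y l := by
  classical
  have h2 : ∑ j with gr j = l, y (gr j) = ∑ j with gr j = l, y l :=
    Finset.sum_congr rfl fun j hj => by rw [(Finset.mem_filter.1 hj).2]
  rw [h2, Finset.sum_const, nsmul_eq_mul, Fintype.card_subtype]

theorem IsGood.nf {N r : ℕ} {gr : Fin N → Fin r} {y top : Fin r → ℝ} {c : ℝ}
    (h : IsGood gr y top c) : NB.Nf ℂ (fun j => y (gr j)) c := by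
  classical
  refine Pool.Agent.TH146.MN.nf_lev (top := top)
    ⟨h.surj, h.pos, h.le, h.att, h.ratio, fun l => ?_, h.mass⟩ h.sq h.six
  rw [← sum_group]
  exact h.big l

theorem noForm_ext {n N e : ℕ} {g : Fin N → Fin n}
    (hg : Function.Injective g) {m : Fin n → ℕ} {x : Fin N → Fin 2 → ℂ}
    (hx : NB.Emp (fun j => m (g j)) x e) :
    NoForm (ptJ (Function.extend g x 0) m) e := by
  refine (noForm_of_emp hx).anti ?_
  unfold ptJ vIdeal
  refine le_iInf fun j => ?_
  have h2 := iInf_le (fun a => Pool.Agent.H932R2.cIdeal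
    (fun _ : Fin 1 => (Function.extend g x 0 : Fin n → Fin 2 → ℂ) a 0)
    (Polynomial.C ((Function.extend g x 0 : Fin n → Fin 2 → ℂ) a 1)) (m a)) (g j)
  simp only [hg.extend_apply] at h2
  exact h2

/-- the support of the multiplicities -/
theorem exists_supp {n : ℕ} (m : Fin n → ℕ) : ∃ (N : ℕ) (g : Fin N → Fin n),
    Function.Injective g ∧ (∀ j, m (g j) ≠ 0) ∧ (∀ i, m i ≠ 0 → ∃ j, g j = i) ∧
      ∀ h : Fin n → ℝ, (∀ i, m i = 0 → h i = 0) → ∑ j, h (g j) = ∑ i, h i := by
  classical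
  obtain ⟨I, hI⟩ : ∃ I : Finset (Fin n), I = Finset.univ.filter fun i => m i ≠ 0 := ⟨_, rfl⟩
  have hmI : ∀ i, i ∈ I ↔ m i ≠ 0 := by
    intro i
    rw [hI, Finset.mem_filter]
    exact ⟨fun h => h.2, fun h => ⟨Finset.mem_univ _, h⟩⟩
  refine ⟨I.card, fun j => (I.equivFin.symm j : Fin n), ?_, ?_, ?_, ?_⟩
  · exact fun j j' h => I.equivFin.symm.injective (Subtype.ext h)
  · exact fun j => (hmI _).1 (I.equivFin.symm j).2
  · intro i hi
    exact ⟨I.equivFin ⟨i, (hmI i).2 hi⟩, by simp⟩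
  · intro h hh
    have h1 : ∑ j, h (I.equivFin.symm j : Fin n) = ∑ i : I, h i := by
      rw [← I.equivFin.symm.sum_comp (fun i : I => h i)]
    rw [h1, Finset.sum_coe_sort I h, hI]
    refine Finset.sum_subset (Finset.subset_univ _) fun i _ hi => ?_
    rw [Finset.mem_filter] at hi
    push Not at hi
    exact hh i (hi (Finset.mem_univ i))

/-- good multiplicities give good weights -/
theorem IsGoodMult.isGood {n N : ℕ} {m : Fin n → ℕ} {top : ℕ → ℕ} (h : IsGoodMult m top)
    {g : Fin N → Fin n} (hg0 : ∀ j, m (g j) ≠ 0) (hgs : ∀ i, m i ≠ 0 → ∃ j, g j = i)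
    (hsum : ∀ h : Fin n → ℝ, (∀ i, m i = 0 → h i = 0) → ∑ j, h (g j) = ∑ i, h i)
    (hN : 0 < N) :
    ∃ (r : ℕ) (gr : Fin N → Fin r) (y tp : Fin r → ℝ), (∀ j, y (gr j) = m (g j)) ∧
      IsGood gr y tp (√(∑ i, (m i : ℝ) ^ 2)) := by
  classical
  have hS0 : (0 : ℝ) ≤ ∑ i, (m i : ℝ) ^ 2 := Finset.sum_nonneg fun i _ => sq_nonneg _
  obtain ⟨c, hc⟩ : ∃ c : ℝ, c = √(∑ i, (m i : ℝ) ^ 2) := ⟨_, rfl⟩
  have hc2 : c ^ 2 = ∑ i, (m i : ℝ) ^ 2 := by rw [hc]; exact Real.sq_sqrt hS0
  have hc0 : 0 ≤ c := by rw [hc]; exact Real.sqrt_nonneg _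
  obtain ⟨V, hV⟩ : ∃ V : Finset ℕ, V = (Finset.univ.image m).filter (· ≠ 0) := ⟨_, rfl⟩
  have hmV : ∀ t, t ∈ V ↔ t ≠ 0 ∧ ∃ i, m i = t := by
    intro t
    rw [hV, Finset.mem_filter, Finset.mem_image]
    exact ⟨fun ⟨⟨i, _, h2⟩, h1⟩ => ⟨h1, i, h2⟩, fun ⟨h1, i, h2⟩ => ⟨⟨i, Finset.mem_univ _, h2⟩, h1⟩⟩
  have hgV : ∀ j, m (g j) ∈ V := fun j => (hmV _).2 ⟨hg0 j, g j, rfl⟩
  let gr : Fin N → Fin V.card := fun j => V.equivFin ⟨m (g j), hgV j⟩
  let v : Fin V.card → ℕ := fun l => (V.equivFin.symm l : ℕ)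
  have hv : ∀ j, v (gr j) = m (g j) := by
    intro j
    simp only [v, gr, Equiv.symm_apply_apply]
  have hvV : ∀ l, v l ∈ V := fun l => (V.equivFin.symm l).2
  have hvinj : Function.Injective v := fun l l' h =>
    V.equivFin.symm.injective (Subtype.ext h)
  have hvex : ∀ l, ∃ i, m i ≠ 0 ∧ m i = v l := fun l => by
    obtain ⟨h3, i, hi⟩ := (hmV _).1 (hvV l)
    exact ⟨i, by rw [hi]; exact h3, hi⟩
  have hvsurj : ∀ t ∈ V, ∃ l, v l = t := fun t ht => ⟨V.equivFin ⟨t, ht⟩, by simp [v]⟩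
  have hsurj : Function.Surjective gr := by
    intro l
    obtain ⟨i, hi0, hi⟩ := hvex l
    obtain ⟨j, hj⟩ := hgs i hi0
    refine ⟨j, hvinj ?_⟩
    rw [hv, hj, hi]
  have hgrv : ∀ j l, gr j = l ↔ m (g j) = v l := fun j l => by
    rw [← hv j]
    exact ⟨fun h => by rw [h], fun h => hvinj h⟩
  refine ⟨V.card, gr, fun l => (v l : ℝ), fun l => (top (v l) : ℝ), fun j => by
    simp only [hv j], ?_⟩
  rw [← hc]
  have hsq : ∑ j, ((v (gr j) : ℕ) : ℝ) ^ 2 = c ^ 2 := by
    rw [hc2, ← hsum (fun i => (m i : ℝ) ^ 2) (fun i hi => by simp only [hi]; norm_num)]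
    exact Finset.sum_congr rfl fun j _ => by rw [hv j]
  refine ⟨hsurj, ?_, hsq, ?_, ?_, ?_, ?_, ?_, ?_⟩
  · intro l
    have h1 := ((hmV _).1 (hvV l)).1
    exact_mod_cast Nat.pos_of_ne_zero h1
  · intro l
    obtain ⟨i, hi0, hi⟩ := hvex l
    have := h.le i hi0
    rw [hi] at this
    exact_mod_cast this
  · intro l l' hl
    obtain ⟨i, hi0, hi⟩ := hvex l
    obtain ⟨i', hi0', hi'⟩ := hvex l'
    have := h.ratio i i' hi0 hi0' (by rw [hi, hi']; exact_mod_cast hl)
    rw [hi, hi'] at this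
    exact_mod_cast this
  · intro l l' hl
    obtain ⟨i, hi0, hi⟩ := hvex l
    obtain ⟨i', hi0', hi'⟩ := hvex l'
    obtain ⟨k, hk1, hk2⟩ := h.att i i' hi0 hi0' (by rw [hi, hi']; exact_mod_cast hl)
    have hk0 : m k ≠ 0 := by
      have h1 := h.le i hi0
      have h2 := Nat.pos_of_ne_zero hi0
      omega
    obtain ⟨l'', hl''⟩ := hvsurj (m k) ((hmV _).2 ⟨hk0, k, rfl⟩)
    refine ⟨l'', ?_, ?_⟩
    · rw [hl'', hk1, hi]
    · rw [hl'', hk2, hi]
  · intro l
    obtain ⟨i, hi0, hi⟩ := hvex l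
    rcases h.big i hi0 with h1 | h1
    · left
      rw [hi] at h1
      exact_mod_cast h1
    · right
      rw [hi] at h1
      have h5 : (top (v l) : ℝ) < ∑ j with m j = v l, (m j : ℝ) := by exact_mod_cast h1
      refine lt_of_lt_of_eq h5 ?_
      rw [Finset.sum_filter, Finset.sum_filter]
      rw [← hsum (fun j => if m j = v l then (m j : ℝ) else 0) (fun j hj => by
        simp only [hj]
        split_ifs <;> norm_num)]
      refine Finset.sum_congr rfl fun j _ => ?_
      by_cases h7 : gr j = l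
      · rw [if_pos ((hgrv j l).1 h7), if_pos h7, hv j]
      · rw [if_neg (fun h => h7 ((hgrv j l).2 h)), if_neg h7]
  · intro l
    obtain ⟨i, hi0, hi⟩ := hvex l
    have h1 := h.mass i hi0
    rw [hi] at h1
    have h2 : (Finset.univ.filter fun l' => (top (v l') : ℝ) = top (v l)).card =
        ((Finset.univ.image m).filter fun t => t ≠ 0 ∧ top t = top (v l)).card := by
      refine Finset.card_bij (fun l' _ => v l') ?_ ?_ ?_
      · intro l' hl'
        rw [Finset.mem_filter] at hl' ⊢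
        obtain ⟨i', hi0', hi'⟩ := hvex l'
        refine ⟨Finset.mem_image.2 ⟨i', Finset.mem_univ _, hi'⟩, by rw [← hi']; exact hi0', ?_⟩
        exact_mod_cast hl'.2
      · intro l' _ l'' _ h
        exact hvinj h
      · intro t ht
        rw [Finset.mem_filter, Finset.mem_image] at ht
        obtain ⟨⟨i', -, hi'⟩, ht0, ht1⟩ := ht
        obtain ⟨l', hl'⟩ := hvsurj t ((hmV _).2 ⟨ht0, i', hi'⟩)
        refine ⟨l', Finset.mem_filter.2 ⟨Finset.mem_univ _, ?_⟩, hl'⟩
        rw [hl', ht1]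
    rw [h2]
    have h3 : ∑ j with (top (v (gr j)) : ℝ) ≤ top (v l), ((v (gr j) : ℕ) : ℝ) ^ 2 =
        ∑ j with top (m j) ≤ top (v l), (m j : ℝ) ^ 2 := by
      rw [Finset.sum_filter, Finset.sum_filter]
      rw [← hsum (fun j => if top (m j) ≤ top (v l) then (m j : ℝ) ^ 2 else 0) (fun j hj => by
        simp only [hj]
        split_ifs <;> norm_num)]
      refine Finset.sum_congr rfl fun j _ => ?_
      rw [hv j]
      simp only [Nat.cast_le]
    rw [h3]
    exact_mod_cast h1
  · obtain ⟨l0⟩ : Nonempty (Fin V.card) := ⟨gr ⟨0, hN⟩⟩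
    obtain ⟨l1, -, hl1⟩ := Finset.exists_max_image (Finset.univ : Finset (Fin V.card))
      (fun l => top (v l)) ⟨l0, Finset.mem_univ _⟩
    refine ⟨top (v l1), fun l => by exact_mod_cast hl1 l (Finset.mem_univ _), ⟨l1, rfl⟩, ?_⟩
    right; right
    obtain ⟨i, hi0, hi⟩ := hvex l1
    have h1 := h.six i hi0
    rw [hi] at h1
    have h2 : (36 : ℝ) * (top (v l1) : ℝ) ^ 2 ≤ ∑ j, (m j : ℝ) ^ 2 := by exact_mod_cast h1
    rw [← hc2] at h2
    have h3 : (6 * (top (v l1) : ℝ)) ^ 2 ≤ c ^ 2 := by nlinarith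
    exact le_of_sq_le_sq h3 hc0

/-- Part (1): the classes `c H - ∑ y (gr j) E_{g j}` with good weights are nonnegative on all
curves through very general points `p`. Part (2): a curve of degree `e` through very general points
with good multiplicities `m i` has `∑ m i ^ 2 ≤ e ^ 2`. Part (3): the same if every nonzero `m i` is
attained at least `16` times and `36 m i ^ 2 ≤ ∑ m j ^ 2`. -/
theorem result (n : ℕ) :
    ∃ f : ℕ → MvPolynomial (Fin n × Fin 2) ℂ, (∀ k, f k ≠ 0) ∧
      ∀ p : Fin n → Fin 2 → ℂ,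
        (∀ k, MvPolynomial.eval (fun q : Fin n × Fin 2 => p q.1 q.2) (f k) ≠ 0) →
        (∀ (N r : ℕ) (g : Fin N → Fin n) (gr : Fin N → Fin r) (y top : Fin r → ℝ) (c : ℝ),
          Function.Injective g → IsGood gr y top c →
          ∀ (F : MvPolynomial (Fin 3) ℂ) (e : ℕ) (m : Fin n → ℕ), F.IsHomogeneous e → F ≠ 0 →
            (∀ i, MultGE (p i) F (m i)) → ∑ j, y (gr j) * (m (g j) : ℝ) ≤ c * e) ∧
        (∀ (F : MvPolynomial (Fin 3) ℂ) (e : ℕ) (m : Fin n → ℕ), F.IsHomogeneous e → F ≠ 0 →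
          (∀ i, MultGE (p i) F (m i)) → (∃ top, IsGoodMult m top) →
          ∑ i, m i ^ 2 ≤ e ^ 2) ∧
        (∀ (F : MvPolynomial (Fin 3) ℂ) (e : ℕ) (m : Fin n → ℕ), F.IsHomogeneous e → F ≠ 0 →
          (∀ i, MultGE (p i) F (m i)) →
          (∀ i, m i ≠ 0 → 16 ≤ (Finset.univ.filter fun j => m j = m i).card) →
          (∀ i, 36 * m i ^ 2 ≤ ∑ j, m j ^ 2) → ∑ i, m i ^ 2 ≤ e ^ 2) := by
  classical
  obtain ⟨f, hf, hf'⟩ := exists_conds_all (K := ℂ) n
  refine ⟨f, hf, fun p hp => ?_⟩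
  have hA : ∀ (N : ℕ) (g : Fin N → Fin n) (x : Fin N → ℝ) (c : ℝ),
      Function.Injective g → NB.Nf ℂ x c →
      ∀ (F : MvPolynomial (Fin 3) ℂ) (e : ℕ) (m : Fin n → ℕ), F.IsHomogeneous e → F ≠ 0 →
        (∀ i, MultGE (p i) F (m i)) → ∑ j, x j * (m (g j) : ℝ) ≤ c * e := by
    intro N g x c hg hG F e m hF hF0 hm
    by_contra hcon
    push Not at hcon
    obtain ⟨z, hz⟩ := hG (fun j => m (g j)) e (by linarith)
    refine hF0 (hf' p hp e m ⟨_, noForm_ext hg hz⟩ F hF ?_)
    unfold ptJ vIdeal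
    rw [Ideal.mem_iInf]
    intro i
    exact mem_of_support (p := p i) (hm i)
  -- from nefness to the self-intersection
  have hB : ∀ (F : MvPolynomial (Fin 3) ℂ) (e : ℕ) (m : Fin n → ℕ), F.IsHomogeneous e → F ≠ 0 →
      (∀ i, MultGE (p i) F (m i)) → ∀ (N : ℕ) (g : Fin N → Fin n), Function.Injective g →
      (∀ h : Fin n → ℝ, (∀ i, m i = 0 → h i = 0) → ∑ j, h (g j) = ∑ i, h i) →
      NB.Nf ℂ (fun j => (m (g j) : ℝ)) (√(∑ i, (m i : ℝ) ^ 2)) → ∑ i, m i ^ 2 ≤ e ^ 2 := by
    intro F e m hF hF0 hm N g hg hsum hnf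
    have h1 := hA N g _ _ hg hnf F e m hF hF0 hm
    have hS0 : (0 : ℝ) ≤ ∑ i, (m i : ℝ) ^ 2 := Finset.sum_nonneg fun i _ => sq_nonneg _
    obtain ⟨c, hc⟩ : ∃ c : ℝ, c = √(∑ i, (m i : ℝ) ^ 2) := ⟨_, rfl⟩
    have hc2 : c ^ 2 = ∑ i, (m i : ℝ) ^ 2 := by rw [hc]; exact Real.sq_sqrt hS0
    have hc0 : 0 ≤ c := by rw [hc]; exact Real.sqrt_nonneg _
    rw [← hc] at h1
    have h2 : ∑ j, (m (g j) : ℝ) * (m (g j) : ℝ) = c ^ 2 := by
      rw [hc2, ← hsum (fun i => (m i : ℝ) ^ 2) (fun i hi => by simp only [hi]; norm_num)]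
      exact Finset.sum_congr rfl fun j _ => by ring
    rw [h2] at h1
    have he0 : (0 : ℝ) ≤ e := Nat.cast_nonneg e
    have h3 : c ≤ e := by
      rcases hc0.eq_or_lt with h0 | h0
      · rw [← h0]; exact he0
      · nlinarith
    have h4 : (∑ i, (m i : ℝ) ^ 2) ≤ (e : ℝ) ^ 2 := by
      rw [← hc2]
      exact pow_le_pow_left₀ hc0 h3 2
    exact_mod_cast h4
  refine ⟨?_, ?_, ?_⟩
  · intro N r g gr y top c hg hG
    exact hA N g _ c hg hG.nf
  · rintro F e m hF hF0 hm ⟨top, hG⟩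
    obtain ⟨N, g, hg, hg0, hgs, hsum⟩ := exists_supp m
    rcases Nat.eq_zero_or_pos N with hN | hN
    · subst hN
      have h1 := hsum (fun i => (m i : ℝ) ^ 2) (fun i hi => by simp only [hi]; norm_num)
      rw [Finset.univ_eq_empty, Finset.sum_empty] at h1
      have h2 : ∑ i, m i ^ 2 = 0 := by exact_mod_cast h1.symm
      rw [h2]
      exact Nat.zero_le _
    · obtain ⟨r, gr, y, tp, hy, hG'⟩ := hG.isGood hg0 hgs hsum hN
      refine hB F e m hF hF0 hm N g hg hsum ?_
      have h1 := hG'.nf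
      have e1 : (fun j => y (gr j)) = fun j => (m (g j) : ℝ) := funext hy
      rwa [e1] at h1
  · intro F e m hF hF0 hm h16 h36
    obtain ⟨N, g, hg, hg0, hgs, hsum⟩ := exists_supp m
    rcases Nat.eq_zero_or_pos N with hN | hN
    · subst hN
      have h1 := hsum (fun i => (m i : ℝ) ^ 2) (fun i hi => by simp only [hi]; norm_num)
      rw [Finset.univ_eq_empty, Finset.sum_empty] at h1
      have h2 : ∑ i, m i ^ 2 = 0 := by exact_mod_cast h1.symm
      rw [h2]
      exact Nat.zero_le _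
    · have hS0 : (0 : ℝ) ≤ ∑ i, (m i : ℝ) ^ 2 := Finset.sum_nonneg fun i _ => sq_nonneg _
      obtain ⟨c, hc⟩ : ∃ c : ℝ, c = √(∑ i, (m i : ℝ) ^ 2) := ⟨_, rfl⟩
      have hc2 : c ^ 2 = ∑ i, (m i : ℝ) ^ 2 := by rw [hc]; exact Real.sq_sqrt hS0
      have hc0 : 0 ≤ c := by rw [hc]; exact Real.sqrt_nonneg _
      have h6 : ∀ i, 6 * (m i : ℝ) ≤ c := by
        intro i
        have h1 : (36 : ℝ) * (m i : ℝ) ^ 2 ≤ ∑ j, (m j : ℝ) ^ 2 := by exact_mod_cast h36 i
        rw [← hc2] at h1
        have h3 : (6 * (m i : ℝ)) ^ 2 ≤ c ^ 2 := by nlinarith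
        exact le_of_sq_le_sq h3 hc0
      have hpos : ∀ j, (0 : ℝ) < m (g j) := fun j => by
        exact_mod_cast Nat.pos_of_ne_zero (hg0 j)
      have hcpos : 0 < c := by
        have := h6 (g ⟨0, hN⟩)
        have := hpos ⟨0, hN⟩
        linarith
      refine hB F e m hF hF0 hm N g hg hsum ?_
      rw [← hc]
      refine Pool.Agent.TH146.MN.nf_rep (fun j => (m (g j) : ℝ)) hpos hcpos ?_ ?_
        (fun j => h6 (g j))
      · rw [hc2, ← hsum (fun i => (m i : ℝ) ^ 2) (fun i hi => by simp only [hi]; norm_num)]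
      · intro j
        refine (h16 (g j) (hg0 j)).trans ?_
        rw [Fintype.card_subtype]
        have h1 : (Finset.univ.filter fun i => m i = m (g j)) ⊆
            (Finset.univ.filter fun k : Fin N => (m (g k) : ℝ) = m (g j)).image g := by
          intro i hi
          have hi' := (Finset.mem_filter.1 hi).2
          obtain ⟨k, hk⟩ := hgs i (by rw [hi']; exact hg0 j)
          refine Finset.mem_image.2 ⟨k, Finset.mem_filter.2 ⟨Finset.mem_univ _, ?_⟩, hk⟩
          rw [hk, hi']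
        exact (Finset.card_le_card h1).trans Finset.card_image_le

end Pool.Agent.Results.MP_d3e5c7_ag.WeightedNagata
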